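import Pool.Agent.Helper58.LC.Goals

set_option autoImplicit false

open Pool.Agent.Helper58.LC
open Classical Finset

namespace Pool.Agent.Helper80.LC.CHG

/-- The parity function. -/
def F (v : Bool) (T : Finset ℕ) (k : ℕ) : Bool := xor v (decide (Odd (T.filter (· < k)).card))

theorem aux {J : Type} (g : J → Bool) : ∀ (l : List J) (a : J), ∃ T : Finset ℕ,
    T.card ≤ ch g (a :: l) ∧ (∀ t ∈ T, t < (a :: l).length) ∧
    ∀ (k : ℕ) (hk : k < (a :: l).length), g ((a :: l).get ⟨k, hk⟩) = F (g a) T k := by
  intro l
  induction l with
  | nil =>
    intro a
    refine ⟨∅, by simp, by simp, ?_⟩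
    intro k hk
    have : k = 0 := by simpa using hk
    subst this
    simp [F]
  | cons b l ih =>
    intro a
    obtain ⟨T, h1, h2, h3⟩ := ih b
    set s : ℕ ↪ ℕ := ⟨Nat.succ, Nat.succ_injective⟩ with hs
    refine ⟨(if g a = g b then ∅ else {0}) ∪ T.map s, ?_, ?_, ?_⟩
    · refine (Finset.card_union_le _ _).trans ?_
      rw [Finset.card_map]
      have : ch g (a :: b :: l) = (if g a = g b then 0 else 1) + ch g (b :: l) := rfl
      rw [this]
      split_ifs <;> simp <;> omega
    · intro t ht
      rw [Finset.mem_union] at ht
      rcases ht with ht | ht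
      · split_ifs at ht
        · simp at ht
        · have : t = 0 := by simpa using ht
          subst this
          simp
      · rw [Finset.mem_map] at ht
        obtain ⟨u, hu, rfl⟩ := ht
        have := h2 u hu
        simp [hs] at this ⊢
        omega
    · intro k hk
      rcases k with _ | k
      · simp [F]
      · have hk' : k < (b :: l).length := by simpa using hk
        have e1 : (a :: b :: l).get ⟨k + 1, hk⟩ = (b :: l).get ⟨k, hk'⟩ := rfl
        rw [e1, h3 k hk']
        have e2 : (((if g a = g b then ∅ else {0}) ∪ T.map s).filter (· < k + 1)) =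
            (if g a = g b then ∅ else {0}) ∪ (T.filter (· < k)).map s := by
          ext t
          by_cases hab : g a = g b
          · simp [hab, hs]
            constructor
            · rintro ⟨⟨u, hu, rfl⟩, h⟩
              exact ⟨u, ⟨hu, by omega⟩, rfl⟩
            · rintro ⟨u, ⟨hu, h⟩, rfl⟩
              exact ⟨⟨u, hu, rfl⟩, by omega⟩
          · simp [hab, hs]
            constructor
            · rintro ⟨rfl | ⟨u, hu, rfl⟩, h⟩
              · left; rfl
              · right; exact ⟨u, ⟨hu, by omega⟩, rfl⟩
            · rintro (rfl | ⟨u, ⟨hu, h⟩, rfl⟩)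
              · exact ⟨Or.inl rfl, by omega⟩
              · exact ⟨Or.inr ⟨u, hu, rfl⟩, by omega⟩
        have e3 : (((if g a = g b then ∅ else {0}) : Finset ℕ) ∪ (T.filter (· < k)).map s).card =
            (if g a = g b then 0 else 1) + (T.filter (· < k)).card := by
          rw [Finset.card_union_of_disjoint, Finset.card_map]
          · split_ifs <;> simp
          · rw [Finset.disjoint_left]
            intro t ht ht'
            rw [Finset.mem_map] at ht'
            obtain ⟨u, _, rfl⟩ := ht'
            split_ifs at ht
            · simp at ht
            · simp [hs] at ht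
        unfold F
        rw [e2, e3]
        by_cases hab : g a = g b
        · simp [hab]
        · have hb : g b = !(g a) := by
            revert hab
            cases g a <;> cases g b <;> simp
          rw [if_neg hab, hb]
          have : Odd (1 + (T.filter (· < k)).card) ↔ ¬ Odd (T.filter (· < k)).card := by
            rw [Nat.odd_add]
            simp
          rw [show (decide (Odd (1 + (T.filter (· < k)).card))) =
            !(decide (Odd (T.filter (· < k)).card)) by
              rw [decide_eq_decide.mpr this, decide_not]]
          cases g a <;> simp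

theorem t : CHG := by
  refine ⟨F, ?_⟩
  intro J l g
  rcases l with _ | ⟨a, l⟩
  · exact ⟨false, ∅, by simp, by simp, by intro k hk; simp at hk⟩
  · obtain ⟨T, h1, h2, h3⟩ := aux g l a
    exact ⟨g a, T, h1, h2, h3⟩

end Pool.Agent.Helper80.LC.CHG
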