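import Pool.Agent.Helper58.LC.Goals

set_option autoImplicit false

open Pool.Agent.Helper58.LC
open Classical Finset

namespace Pool.Agent.Helper80.LC.HS

theorem t : HS := by
  intro V ι _ _ w S a q hw ha hq hN hW
  have ha0 : (0 : ℝ) < a := by exact_mod_cast ha
  have ha1 : (1 : ℝ) ≤ a := by exact_mod_cast ha
  have h01 : (0 : ℝ) ≤ 1 - 1 / (a : ℝ) := by
    rw [sub_nonneg, div_le_one ha0]; exact ha1
  have key : ∀ m : ℕ, ∃ R : Finset V, R.card ≤ m ∧
      (((univ : Finset ι).filter (fun k => ∑ v, w v ≤ a * ∑ v ∈ S k, w v ∧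
        ∀ v ∈ R, v ∉ S k)).card : ℝ) ≤ (1 - 1 / (a : ℝ)) ^ m * Fintype.card ι := by
    intro m
    induction m with
    | zero =>
      refine ⟨∅, by simp, ?_⟩
      rw [pow_zero, one_mul]
      exact_mod_cast Finset.card_le_univ _
    | succ m ih =>
      obtain ⟨R, hR, hF⟩ := ih
      set F := (univ : Finset ι).filter (fun k => ∑ v, w v ≤ a * ∑ v ∈ S k, w v ∧
        ∀ v ∈ R, v ∉ S k) with hFdef
      have hex : ∃ v : V, (F.card : ℝ) / a ≤ ((F.filter (fun k => v ∈ S k)).card : ℝ) := by
        by_contra hcon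
        push Not at hcon
        have hsum : ∑ v, w v * ((F.filter (fun k => v ∈ S k)).card : ℝ) =
            ∑ k ∈ F, ∑ v ∈ S k, w v := by
          have h1 : ∀ v, w v * ((F.filter (fun k => v ∈ S k)).card : ℝ) =
              ∑ k ∈ F, if v ∈ S k then w v else 0 := by
            intro v
            rw [← Finset.sum_filter, Finset.sum_const, nsmul_eq_mul, mul_comm]
          simp_rw [h1]
          rw [Finset.sum_comm]
          refine Finset.sum_congr rfl fun k _ => ?_
          rw [← Finset.sum_filter]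
          refine Finset.sum_congr ?_ fun _ _ => rfl
          ext v; simp
        have hlow : (F.card : ℝ) * (∑ v, w v) ≤ a * ∑ k ∈ F, ∑ v ∈ S k, w v := by
          rw [show (F.card : ℝ) * (∑ v, w v) = ∑ k ∈ F, ∑ v, w v by
            rw [Finset.sum_const, nsmul_eq_mul], Finset.mul_sum]
          refine Finset.sum_le_sum fun k hk => ?_
          exact ((Finset.mem_filter.mp hk).2).1
        have hup : ∑ v, w v * ((F.filter (fun k => v ∈ S k)).card : ℝ) <
            ∑ v, w v * ((F.card : ℝ) / a) := by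
          apply Finset.sum_lt_sum
          · intro v _
            exact mul_le_mul_of_nonneg_left (hcon v).le (hw v)
          · obtain ⟨v, _, hv⟩ : ∃ v ∈ (univ : Finset V), 0 < w v := by
              by_contra h
              push Not at h
              have : ∑ v, w v ≤ 0 := Finset.sum_nonpos h
              linarith
            exact ⟨v, Finset.mem_univ v, mul_lt_mul_of_pos_left (hcon v) hv⟩
        rw [hsum, ← Finset.sum_mul] at hup
        have : a * ∑ k ∈ F, ∑ v ∈ S k, w v < a * ((∑ v, w v) * ((F.card : ℝ) / a)) :=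
          mul_lt_mul_of_pos_left hup ha0
        rw [show (a : ℝ) * ((∑ v, w v) * ((F.card : ℝ) / a)) = (F.card : ℝ) * ∑ v, w v by
          field_simp] at this
        linarith
      obtain ⟨v, hv⟩ := hex
      refine ⟨insert v R, (Finset.card_insert_le _ _).trans (by omega), ?_⟩
      have hsub : ((univ : Finset ι).filter (fun k => ∑ v, w v ≤ a * ∑ v ∈ S k, w v ∧
          ∀ u ∈ insert v R, u ∉ S k)) = F.filter (fun k => ¬ v ∈ S k) := by
        ext k
        simp only [Finset.mem_filter, Finset.mem_univ, true_and, Finset.mem_insert,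
          forall_eq_or_imp, hFdef]
        tauto
      rw [hsub]
      have hcard : ((F.filter (fun k => v ∈ S k)).card : ℝ) +
          ((F.filter (fun k => ¬ v ∈ S k)).card : ℝ) = F.card := by
        exact_mod_cast Finset.card_filter_add_card_filter_not (s := F) (fun k => v ∈ S k)
      have : ((F.filter (fun k => ¬ v ∈ S k)).card : ℝ) ≤ (1 - 1 / (a : ℝ)) * F.card := by
        have e : (1 - 1 / (a : ℝ)) * F.card = F.card - F.card / a := by ring
        rw [e]; linarith
      calc ((F.filter (fun k => ¬ v ∈ S k)).card : ℝ) ≤ (1 - 1 / (a : ℝ)) * F.card := this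
        _ ≤ (1 - 1 / (a : ℝ)) * ((1 - 1 / (a : ℝ)) ^ m * Fintype.card ι) :=
          mul_le_mul_of_nonneg_left hF h01
        _ = (1 - 1 / (a : ℝ)) ^ (m + 1) * Fintype.card ι := by ring
  obtain ⟨R, hR, hF⟩ := key (a * q)
  refine ⟨R, hR, ?_⟩
  have hlt : (1 - 1 / (a : ℝ)) ^ (a * q) * Fintype.card ι < 1 := by
    have h1 : (1 - 1 / (a : ℝ)) ≤ Real.exp (-(1 / (a : ℝ))) := by
      have := Real.add_one_le_exp (-(1 / (a : ℝ)))
      linarith
    have h2 : (1 - 1 / (a : ℝ)) ^ (a * q) ≤ Real.exp (-(q : ℝ)) := by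
      calc (1 - 1 / (a : ℝ)) ^ (a * q) ≤ (Real.exp (-(1 / (a : ℝ)))) ^ (a * q) :=
            pow_le_pow_left₀ h01 h1 _
        _ = Real.exp (-(q : ℝ)) := by
          rw [← Real.exp_nat_mul]
          congr 1
          push_cast
          field_simp
    have h3 : (Fintype.card ι : ℝ) ≤ 2 ^ q := by exact_mod_cast hN
    have h4 : (2 : ℝ) ^ q < Real.exp 1 ^ q := by
      apply pow_lt_pow_left₀ _ (by norm_num) (by omega)
      have := Real.exp_one_gt_d9
      linarith
    have h5 : Real.exp (-(q : ℝ)) * Real.exp 1 ^ q = 1 := by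
      rw [← Real.exp_nat_mul, ← Real.exp_add]
      simp
    calc (1 - 1 / (a : ℝ)) ^ (a * q) * Fintype.card ι ≤ Real.exp (-(q : ℝ)) * 2 ^ q :=
          mul_le_mul h2 h3 (by positivity) (Real.exp_pos _).le
      _ < Real.exp (-(q : ℝ)) * Real.exp 1 ^ q := mul_lt_mul_of_pos_left h4 (Real.exp_pos _)
      _ = 1 := h5
  have hz : ((univ : Finset ι).filter (fun k => ∑ v, w v ≤ a * ∑ v ∈ S k, w v ∧
        ∀ v ∈ R, v ∉ S k)).card = 0 := by
    have : (((univ : Finset ι).filter (fun k => ∑ v, w v ≤ a * ∑ v ∈ S k, w v ∧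
        ∀ v ∈ R, v ∉ S k)).card : ℝ) < 1 := lt_of_le_of_lt hF hlt
    have : ((univ : Finset ι).filter (fun k => ∑ v, w v ≤ a * ∑ v ∈ S k, w v ∧
        ∀ v ∈ R, v ∉ S k)).card < 1 := by exact_mod_cast this
    omega
  intro k hk
  by_contra hcon
  push Not at hcon
  rw [Finset.card_eq_zero] at hz
  have : k ∈ (univ : Finset ι).filter (fun k => ∑ v, w v ≤ a * ∑ v ∈ S k, w v ∧
        ∀ v ∈ R, v ∉ S k) := by
    rw [Finset.mem_filter]
    exact ⟨Finset.mem_univ _, hk, hcon⟩
  rw [hz] at this
  simp at this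

end Pool.Agent.Helper80.LC.HS
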